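import Mathlib
import Pool.Agent.VarChain.Lattice

/-!
Varieties of groups with countably many subvarieties: in a properly descending chain of
subvarieties every group separating two late consecutive members generates a variety that
again has an infinite properly descending chain of subvarieties.
-/

set_option autoImplicit false

open scoped Pointwise

namespace Pool.Agent.Results.MP_c8c516_al.ChainSteps

universe u

/-- `M` is a fully invariant subgroup of the free group on `x_0, x_1, …`. -/
def FullyInvariant (M : Subgroup (FreeGroup ℕ)) : Prop :=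
  ∀ φ : FreeGroup ℕ →* FreeGroup ℕ, ∀ x ∈ M, φ x ∈ M

/-- The subgroup of all laws of the group `G`: all words in `x_0, x_1, …` that are mapped to `1`
by every homomorphism to `G`. -/
def laws (G : Type u) [Group G] : Subgroup (FreeGroup ℕ) where
  carrier := {w | ∀ f : FreeGroup ℕ →* G, f w = 1}
  mul_mem' := by
    intro a b ha hb f
    rw [map_mul, ha f, hb f, one_mul]
  one_mem' := by
    intro f
    exact map_one f
  inv_mem' := by
    intro a ha f
    rw [map_inv, ha f, inv_one]

theorem fullyInvariant_laws (G : Type u) [Group G] : FullyInvariant (laws G) := by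
  intro φ x hx f
  exact hx (f.comp φ)

/-- The complete lattice of fully invariant subgroups. -/
def FI : CompleteSublattice (Subgroup (FreeGroup ℕ)) :=
  CompleteSublattice.mk' {M | FullyInvariant M}
    (by
      intro s hs φ x hx
      have h : sSup s ≤ (sSup s).comap φ := by
        refine sSup_le fun M hM y hy => ?_
        exact (le_sSup hM : M ≤ sSup s) (hs hM φ y hy)
      exact h hx)
    (by
      intro s hs φ x hx
      rw [Subgroup.mem_sInf] at hx ⊢
      intro M hM
      exact hs hM φ x (hx M hM))

theorem FI_mem (M : Subgroup (FreeGroup ℕ)) : M ∈ FI ↔ FullyInvariant M := Iff.rfl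

theorem FullyInvariant.normal {M : Subgroup (FreeGroup ℕ)} (hM : FullyInvariant M) :
    M.Normal := by
  refine ⟨fun n hn g => ?_⟩
  have := hM (MulAut.conj g).toMonoidHom n hn
  simpa using this

instance : IsModularLattice FI where
  sup_inf_le_assoc_of_le := by
    intro x y z hxz
    have hx : (x : Subgroup (FreeGroup ℕ)).Normal := FullyInvariant.normal x.2
    have hxz' : (x : Subgroup (FreeGroup ℕ)) ≤ (z : Subgroup (FreeGroup ℕ)) := hxz
    show ((x : Subgroup (FreeGroup ℕ)) ⊔ (y : Subgroup (FreeGroup ℕ))) ⊓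
      (z : Subgroup (FreeGroup ℕ)) ≤
      (x : Subgroup (FreeGroup ℕ)) ⊔ ((y : Subgroup (FreeGroup ℕ)) ⊓
        (z : Subgroup (FreeGroup ℕ)))
    intro a ha
    have h2 : a ∈ ((x : Subgroup (FreeGroup ℕ)) : Set (FreeGroup ℕ)) *
        ((y : Subgroup (FreeGroup ℕ)) : Set (FreeGroup ℕ)) ∩
        ((z : Subgroup (FreeGroup ℕ)) : Set (FreeGroup ℕ)) := by
      refine ⟨?_, ha.2⟩
      rw [← Subgroup.normal_mul]
      exact ha.1
    rw [← Subgroup.mul_inf_assoc _ _ _ hxz'] at h2
    show a ∈ (((x : Subgroup (FreeGroup ℕ)) ⊔ ((y : Subgroup (FreeGroup ℕ)) ⊓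
        (z : Subgroup (FreeGroup ℕ))) : Subgroup (FreeGroup ℕ)) : Set (FreeGroup ℕ))
    rw [Subgroup.normal_mul]
    exact h2

/-- If there is no strictly increasing sequence above `u`, monotone sequences stabilise. -/
theorem accAbove_of_not {u : FI}
    (h : ¬ ∃ g : ℕ → Subgroup (FreeGroup ℕ), StrictMono g ∧
      ∀ m, (u : Subgroup (FreeGroup ℕ)) ≤ g m ∧ FullyInvariant (g m)) :
    Pool.Agent.VarChain.AccAbove u := by
  intro f hf hu
  by_contra hcon
  push Not at hcon
  choose e he1 he2 using hcon
  apply h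
  let s : ℕ → ℕ := fun k => Nat.rec 0 (fun _ m => e m) k
  have hs : ∀ k, s (k + 1) = e (s k) := fun k => rfl
  refine ⟨fun k => (f (s k) : Subgroup (FreeGroup ℕ)), strictMono_nat_of_lt_succ ?_, ?_⟩
  · intro k
    show (f (s k) : Subgroup (FreeGroup ℕ)) < (f (s (k + 1)) : Subgroup (FreeGroup ℕ))
    have hle : f (s k) ≤ f (s (k + 1)) := by
      rw [hs]; exact hf (he1 _)
    have hne : f (s (k + 1)) ≠ f (s k) := by
      rw [hs]; exact he2 _
    exact lt_of_le_of_ne hle (fun h => hne (Subtype.ext h.symm))
  · intro k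
    exact ⟨hu (s k), (f (s k)).2⟩

/-- Let `N` be (the group of laws of) a variety of groups with at most countably many
subvarieties and let `f 0 < f 1 < …` be (the groups of laws of) an infinite properly descending
chain of subvarieties. Then for all but finitely many `n`, every group `G` in the `n`-th but not
in the `(n+1)`-st subvariety generates a variety that itself has an infinite properly descending
chain of subvarieties. -/
theorem result (N : Subgroup (FreeGroup ℕ))
    (hc : {M : Subgroup (FreeGroup ℕ) | FullyInvariant M ∧ N ≤ M}.Countable)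
    (f : ℕ → Subgroup (FreeGroup ℕ)) (hf : StrictMono f)
    (hfi : ∀ n, N ≤ f n ∧ FullyInvariant (f n)) :
    ∃ n₀ : ℕ, ∀ n, n₀ ≤ n → ∀ (G : Type u) [Group G], f n ≤ laws G → ¬ f (n + 1) ≤ laws G →
      ∃ g : ℕ → Subgroup (FreeGroup ℕ), StrictMono g ∧
        ∀ m, laws G ≤ g m ∧ FullyInvariant (g m) := by
  by_contra hcon
  push Not at hcon
  choose e he1 G hG hle hnle hno using hcon
  -- indices
  let s : ℕ → ℕ := fun k => Nat.rec 0 (fun _ m => e m + 1) k
  have hs : ∀ k, s (k + 1) = e (s k) + 1 := fun k => rfl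
  let L : ℕ → FI := fun k => ⟨f (e (s k)), (hfi _).2⟩
  let U : ℕ → FI := fun k => ⟨@laws (G (s k)) (hG (s k)), @fullyInvariant_laws _ (hG (s k))⟩
  have hmono : Monotone L := by
    refine monotone_nat_of_le_succ fun k => ?_
    show f (e (s k)) ≤ f (e (s (k + 1)))
    apply hf.monotone
    have h1 := he1 (s (k + 1))
    rw [hs] at h1
    rw [hs]
    omega
  have h1 : ∀ k, L k ≤ U k := fun k => hle (s k)
  have h2 : ∀ k, ¬ L (k + 1) ≤ U k := by
    intro k h
    apply hnle (s k)
    have h3 : f (e (s k) + 1) ≤ f (e (s (k + 1))) := by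
      apply hf.monotone
      have h1 := he1 (s (k + 1))
      rw [hs] at h1
      rw [hs]
      exact h1
    exact h3.trans h
  have hU : ∀ k, Pool.Agent.VarChain.AccAbove (U k) := by
    intro k
    refine accAbove_of_not (fun hex => ?_)
    obtain ⟨g, hg, hg2⟩ := hex
    obtain ⟨m, hm⟩ := hno (s k) g hg
    exact hm (hg2 m).1 (hg2 m).2
  obtain ⟨Φ, hinj, hge⟩ := Pool.Agent.VarChain.exists_injective L hmono U h1 h2 hU
  have hsub : Set.range (fun S : Set ℕ => ((Φ S : FI) : Subgroup (FreeGroup ℕ))) ⊆
      {M : Subgroup (FreeGroup ℕ) | FullyInvariant M ∧ N ≤ M} := by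
    rintro _ ⟨S, rfl⟩
    exact ⟨(Φ S).2, (hfi _).1.trans (hge S)⟩
  have hcount := hc.mono hsub
  have hinj' : Function.Injective (fun S : Set ℕ => ((Φ S : FI) : Subgroup (FreeGroup ℕ))) := by
    intro S T h
    exact hinj (Subtype.ext h)
  have hco : Countable (Set ℕ) := by
    have := hcount.to_subtype
    exact (Set.rangeFactorization_injective.mpr hinj').countable
  rw [← Cardinal.mk_le_aleph0_iff, Cardinal.mk_set, Cardinal.mk_nat] at hco
  exact absurd hco (not_le.mpr (Cardinal.cantor _))

end Pool.Agent.Results.MP_c8c516_al.ChainSteps
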