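import Mathlib
import Pool.Agent.VarCrit.Types
import Pool.Agent.VarCrit.Mono

/-!
Varieties of groups with countably many subvarieties: every example with an infinite properly
descending chain of subvarieties contains an example with a critical section `y / x` of one of
four types, whose laws `x` are the laws of one finitely generated group with a least non-trivial
normal subgroup.
-/

set_option autoImplicit false

namespace Pool.Agent.Results.MP_c8c516_al.CriticalSection

/-- `M` is a fully invariant subgroup of the free group on `x_0, x_1, …`. -/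
def FullyInvariant (M : Subgroup (FreeGroup ℕ)) : Prop :=
  ∀ φ : FreeGroup ℕ →* FreeGroup ℕ, ∀ a ∈ M, φ a ∈ M

/-- `z` is the least fully invariant subgroup containing `x` and some finite set: relative to the
variety with laws `x`, the variety with laws `z` is finitely based. -/
def FinGenOver (x z : Subgroup (FreeGroup ℕ)) : Prop :=
  ∃ S : Finset (FreeGroup ℕ),
    IsLeast {M : Subgroup (FreeGroup ℕ) |
      FullyInvariant M ∧ x ≤ M ∧ (S : Set (FreeGroup ℕ)) ⊆ M} z

/-- `x` is the group of laws of `G`: all words in `x_0, x_1, …` that are mapped to `1` by every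
homomorphism to `G`. -/
def IsLaws (x : Subgroup (FreeGroup ℕ)) (G : Type) [Group G] : Prop :=
  ∀ a : FreeGroup ℕ, a ∈ x ↔ ∀ f : FreeGroup ℕ →* G, f a = 1

/-- (A) The section `y / x` is perfect. -/
def Perfect (x y : Subgroup (FreeGroup ℕ)) : Prop := ⁅y, y⁆ ⊔ x = y

/-- (B) The section `y / x` is an elementary abelian `p`-group. -/
def ElementaryAbelian (x y : Subgroup (FreeGroup ℕ)) : Prop :=
  ⁅y, y⁆ ≤ x ∧ ∃ p : ℕ, p.Prime ∧ ∀ a ∈ y, a ^ p ∈ x

/-- (C) The section `y / x` is a divisible abelian `p`-group. -/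
def DivisiblePGroup (x y : Subgroup (FreeGroup ℕ)) : Prop :=
  ⁅y, y⁆ ≤ x ∧ ∃ p : ℕ, p.Prime ∧ (∀ a ∈ y, ∃ k : ℕ, a ^ (p ^ k) ∈ x) ∧
    ∀ a ∈ y, ∃ b ∈ y, b ^ p * a⁻¹ ∈ x

/-- (D) The section `y / x` is abelian, and for every fully invariant `z` with `x ≤ z ≤ y`
(`z = x` and `z = y` included) `y / z` is torsion free and `z / x` is divisible. -/
def RationalSpace (x y : Subgroup (FreeGroup ℕ)) : Prop :=
  ⁅y, y⁆ ≤ x ∧ ∀ z, FullyInvariant z → x ≤ z → z ≤ y → ∀ n : ℕ, 0 < n →
    (∀ a ∈ y, a ^ n ∈ z → a ∈ z) ∧ ∀ a ∈ z, ∃ b ∈ z, b ^ n * a⁻¹ ∈ x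

/-- Let `N` be (the group of laws of) a variety of groups with at most countably many
subvarieties and let `f 0 < f 1 < …` be (the groups of laws of) an infinite properly descending
chain of subvarieties. Then there are fully invariant subgroups `x < y` with `N ≤ x` and
`y ≤ x ∨ ⋃ f n` such that
(1) `x` is the group of laws of one finitely generated group `G` with a least non-trivial normal
subgroup, (2) some `w` in `y` but not in `x` lies in every fully invariant subgroup that properly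
contains `x`, (3) for every fully invariant `K` that contains `x` but not `y` (`K = x` included)
`K y` is not finitely generated over `K`, but every fully invariant `z` with `K ≤ z < K y` is,
(4) `y / x` is central in `F / x` or `[y, F] x = y`, and (5) `y / x` is of one of the types (A),
(B), (C), (D). -/
theorem result (N : Subgroup (FreeGroup ℕ)) (hN : FullyInvariant N)
    (hc : {M : Subgroup (FreeGroup ℕ) | FullyInvariant M ∧ N ≤ M}.Countable)
    (f : ℕ → Subgroup (FreeGroup ℕ)) (hf : StrictMono f)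
    (hfi : ∀ n, N ≤ f n ∧ FullyInvariant (f n)) :
    ∃ x y : Subgroup (FreeGroup ℕ), N ≤ x ∧ x < y ∧ y ≤ x ⊔ ⨆ n, f n ∧
      FullyInvariant x ∧ FullyInvariant y ∧
      (∃ (G : Type) (_ : Group G) (g : G), Group.FG G ∧ g ≠ 1 ∧
        (∀ K : Subgroup G, K.Normal → K ≠ ⊥ → g ∈ K) ∧ IsLaws x G) ∧
      (∃ w ∈ y, w ∉ x ∧ ∀ u, FullyInvariant u → x < u → w ∈ u) ∧
      (∀ K, FullyInvariant K → x ≤ K → ¬ y ≤ K → ¬ FinGenOver K (K ⊔ y) ∧
        ∀ z, FullyInvariant z → K ≤ z → z < K ⊔ y → FinGenOver K z) ∧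
      (⁅y, (⊤ : Subgroup (FreeGroup ℕ))⁆ ≤ x ∨ ⁅y, (⊤ : Subgroup (FreeGroup ℕ))⁆ ⊔ x = y) ∧
      (Perfect x y ∨ ElementaryAbelian x y ∨ DivisiblePGroup x y ∨ RationalSpace x y) := by
  obtain ⟨x, y, h1, h0, h2, ⟨w, hw, hwx, hwu⟩, h4, h5⟩ :=
    Pool.Agent.VarCrit.exists_section hN hc
    (y₀ := ⨆ n, f n) (Pool.Agent.VarCrit.fi_iSup fun n => (hfi n).2)
    ((hfi 0).1.trans (le_iSup f 0))
    (Pool.Agent.VarCrit.not_FG_iSup hf (fun n => (hfi n).2) fun n => (hfi n).1)
  have hyn := h2.hy.normal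
  have hcl : ∀ K : Subgroup (FreeGroup ℕ), ⁅y, K⁆ ⊔ x ≤ y := fun K =>
    sup_le (Subgroup.commutator_le_left _ _) h2.lt.le
  refine ⟨x, y, h1, h2.lt, h0, h2.hx, h2.hy, Pool.Agent.VarCrit.exists_group h2.hx hwx hwu,
    ⟨w, hw, hwx, hwu⟩, fun K hK hxK hyK => ?_, ?_, ?_⟩
  · have h6 := h2.hereditary hK hxK hyK
    exact ⟨h6.nfg, h6.fg⟩
  · exact h4.imp id fun h => le_antisymm (hcl _) h
  · exact h5.imp (fun h => le_antisymm (hcl _) h) id

end Pool.Agent.Results.MP_c8c516_al.CriticalSection
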